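import Pool.Agent.Lib.MP_c7af3c_ag.GEN.H38.ProjAlg

/-!
# Module SPROJ of project GEN
-/

set_option autoImplicit false

namespace Pool.Agent.Gen.H38

open AlgebraicGeometry CategoryTheory CategoryTheory.Limits MvPolynomial HomogeneousLocalization

section General

universe u

theorem top_le_pre {X Y : Scheme.{u}} (g : X ⟶ Y) : (⊤ : X.Opens) ≤ g ⁻¹ᵁ (⊤ : Y.Opens) :=
  le_of_eq rfl

theorem appLE_congr' {X Y : Scheme.{u}} {g g' : X ⟶ Y} (h : g = g') (U : Y.Opens) (V : X.Opens)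
    (e : V ≤ g ⁻¹ᵁ U) (e' : V ≤ g' ⁻¹ᵁ U) : g.appLE U V e = g'.appLE U V e' := by
  subst h
  rfl

theorem appLE_id_top {X : Scheme.{u}} (e : (⊤ : X.Opens) ≤ (𝟙 X : X ⟶ X) ⁻¹ᵁ (⊤ : X.Opens)) :
    (𝟙 X : X ⟶ X).appLE ⊤ ⊤ e = 𝟙 _ := by
  have h1 : (𝟙 X : X ⟶ X).appLE ⊤ ⊤ e = (𝟙 X : X ⟶ X).app ⊤ := Scheme.Hom.appLE_eq_app _
  rw [h1]
  simp

variable {σ : Type*} {A : Type u}
variable [CommRing A] [SetLike σ A] [AddSubgroupClass σ A]
variable (𝒜 : ℕ → σ) [GradedRing 𝒜] (f : A) {m : ℕ} (f_deg : f ∈ 𝒜 m) (hm : 0 < m)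

theorem awayToSection_awayι (h : ⊤ ≤ Proj.awayι 𝒜 f f_deg hm ⁻¹ᵁ Proj.basicOpen 𝒜 f) :
    Proj.awayToSection 𝒜 f ≫ (Proj.awayι 𝒜 f f_deg hm).appLE (Proj.basicOpen 𝒜 f) ⊤ h =
      (Scheme.ΓSpecIso _).inv := by
  have h1 : (Proj.basicOpenToSpec 𝒜 f).appLE ⊤ ⊤ (top_le_pre _) =
      (Scheme.ΓSpecIso _).hom ≫ Proj.awayToSection 𝒜 f ≫ (Proj.basicOpen 𝒜 f).topIso.inv := by
    rw [← Proj.basicOpenToSpec_app_top 𝒜 f, Scheme.Hom.app_eq_appLE]
    rfl
  have h2 : Proj.awayToSection 𝒜 f = (Scheme.ΓSpecIso _).inv ≫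
      (Proj.basicOpenToSpec 𝒜 f).appLE ⊤ ⊤ (top_le_pre _) ≫
        (Proj.basicOpen 𝒜 f).topIso.hom := by
    rw [h1, Category.assoc, Category.assoc, Iso.inv_hom_id, Category.comp_id,
      Iso.inv_hom_id_assoc]
  have h3 : (Proj.awayι 𝒜 f f_deg hm).appLE (Proj.basicOpen 𝒜 f) ⊤ h =
      (Proj.basicOpen 𝒜 f).topIso.inv ≫
        (Proj.basicOpenIsoSpec 𝒜 f f_deg hm).inv.appLE ⊤ ⊤ (top_le_pre _) := by
    have h4 : (Proj.basicOpen 𝒜 f).topIso.inv =
        (Proj.basicOpen 𝒜 f).ι.appLE (Proj.basicOpen 𝒜 f) ⊤ (by simp) := by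
      rw [Scheme.Opens.ι_appLE]
      rfl
    rw [h4, Scheme.Hom.appLE_comp_appLE]
    rfl
  rw [h2, h3]
  simp only [Category.assoc, Iso.hom_inv_id_assoc]
  rw [Scheme.Hom.appLE_comp_appLE]
  have h5 : (Proj.basicOpenIsoSpec 𝒜 f f_deg hm).inv ≫ Proj.basicOpenToSpec 𝒜 f = 𝟙 _ := by
    rw [← Proj.basicOpenIsoSpec_hom 𝒜 f f_deg hm, Iso.inv_hom_id]
  rw [appLE_congr' h5 ⊤ ⊤ _ (top_le_pre _), appLE_id_top, Category.comp_id]

include f_deg hm in
theorem factor {Z : Scheme.{u}} (P : Z ⟶ Proj 𝒜) (h : ⊤ ≤ P ⁻¹ᵁ Proj.basicOpen 𝒜 f) :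
    ∃ g : Z ⟶ Spec (CommRingCat.of (Away 𝒜 f)), g ≫ Proj.awayι 𝒜 f f_deg hm = P := by
  have h1 : Set.range P ⊆ Set.range (Proj.awayι 𝒜 f f_deg hm) := by
    rintro _ ⟨z, rfl⟩
    have h2 : P z ∈ Proj.basicOpen 𝒜 f := h (TopologicalSpace.Opens.mem_top z)
    rw [← Proj.opensRange_awayι 𝒜 f f_deg hm] at h2
    exact h2
  exact ⟨IsOpenImmersion.lift _ P h1, IsOpenImmersion.lift_fac _ _ _⟩

end General

theorem kval_awayToSection {k : Type} [Field k] {σ : Type*} {A : Type}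
    [CommRing A] [SetLike σ A] [AddSubgroupClass σ A]
    (𝒜 : ℕ → σ) [GradedRing 𝒜] (f : A) {m : ℕ} (f_deg : f ∈ 𝒜 m) (hm : 0 < m)
    (φ : CommRingCat.of (Away 𝒜 f) ⟶ CommRingCat.of k)
    (h : ⊤ ≤ (Spec.map φ ≫ Proj.awayι 𝒜 f f_deg hm) ⁻¹ᵁ Proj.basicOpen 𝒜 f)
    (b : Away 𝒜 f) :
    kval (Spec.map φ ≫ Proj.awayι 𝒜 f f_deg hm) (Proj.basicOpen 𝒜 f) h
      ((Proj.awayToSection 𝒜 f).hom b) = φ.hom b := by
  have h0 : (⊤ : (Spec (CommRingCat.of (Away 𝒜 f))).Opens) ≤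
      Proj.awayι 𝒜 f f_deg hm ⁻¹ᵁ Proj.basicOpen 𝒜 f := by
    rw [← Proj.opensRange_awayι 𝒜 f f_deg hm]
    simp
  have h1 : Proj.awayToSection 𝒜 f ≫
      (Spec.map φ ≫ Proj.awayι 𝒜 f f_deg hm).appLE (Proj.basicOpen 𝒜 f) ⊤ h =
      φ ≫ (Scheme.ΓSpecIso _).inv := by
    have h2 : (Spec.map φ ≫ Proj.awayι 𝒜 f f_deg hm).appLE (Proj.basicOpen 𝒜 f) ⊤ h =
        (Proj.awayι 𝒜 f f_deg hm).appLE (Proj.basicOpen 𝒜 f) ⊤ h0 ≫
          (Spec.map φ).appLE ⊤ ⊤ (top_le_pre _) := by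
      rw [Scheme.Hom.appLE_comp_appLE]
    have h3 : (Spec.map φ).appLE ⊤ ⊤ (top_le_pre _) = (Spec.map φ).appTop :=
      Scheme.Hom.appLE_eq_app _
    rw [h2, ← Category.assoc, awayToSection_awayι, h3, Scheme.ΓSpecIso_inv_naturality]
  have h4 := congrArg (fun g => g ≫ (Scheme.ΓSpecIso (CommRingCat.of k)).hom) h1
  simp only [Category.assoc, Iso.inv_hom_id, Category.comp_id] at h4
  have h5 := congrArg (fun g => g.hom b) h4
  exact h5

section

variable (k : Type) [Field k] (n : ℕ) [GradedAlgebra (homogeneousSubmodule (Fin (n + 1)) k)]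
  (j : Fin (n + 1))

/-- the factorization through the chart -/
theorem exists_psi (P : Spec (CommRingCat.of k) ⟶ Proj (homogeneousSubmodule (Fin (n + 1)) k))
    (h : ⊤ ≤ P ⁻¹ᵁ Proj.basicOpen (homogeneousSubmodule (Fin (n + 1)) k) (X j)) :
    ∃ φ : CommRingCat.of (Away (gr k n) (X j : MvPolynomial (Fin (n + 1)) k)) ⟶
      CommRingCat.of k, Spec.map φ ≫ Proj.awayι (gr k n) (X j) (X_mem k n j) one_pos = P ∧
      (∀ l, pcoord k n j P h l = φ.hom (frX k n j l)) ∧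
      (P ≫ projStr k n = 𝟙 _ → ∀ a, φ.hom (cst k n j a) = a) := by
  obtain ⟨g, hg⟩ := factor (gr k n) (X j) (X_mem k n j) one_pos P h
  refine ⟨Spec.preimage g, ?_, ?_, ?_⟩
  · rw [Spec.map_preimage, hg]
  · intro l
    obtain ⟨φ, rfl⟩ : ∃ φ, g = Spec.map φ := ⟨Spec.preimage g, (Spec.map_preimage g).symm⟩
    subst hg
    rw [Spec.preimage_map]
    exact kval_awayToSection (gr k n) (X j) (X_mem k n j) one_pos φ h (frX k n j l)
  · intro hP a
    obtain ⟨φ, rfl⟩ : ∃ φ, g = Spec.map φ := ⟨Spec.preimage g, (Spec.map_preimage g).symm⟩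
    subst hg
    rw [Spec.preimage_map]
    have h1 : Spec.map (CommRingCat.ofHom (algebraMap k (homogeneousSubmodule (Fin (n + 1)) k 0)) ≫
        CommRingCat.ofHom (fromZeroRingHom (gr k n) (Submonoid.powers (X j :
          MvPolynomial (Fin (n + 1)) k))) ≫ φ) = Spec.map (𝟙 _) := by
      rw [Spec.map_comp, Spec.map_comp, Spec.map_id, ← hP]
      rw [← Proj.awayι_toSpecZero (gr k n) (X j) (X_mem k n j) one_pos]
      simp only [Category.assoc]
    have h2 := Spec.map_injective h1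
    exact congrArg (fun g => g.hom a) h2

theorem projFacts : ProjFacts k n where
  chart := by
    intro x
    have h1 := Proj.iSup_basicOpen_eq_top' (gr k n) (ι := Fin (n + 1)) (fun l => X l)
      (fun l => ⟨1, X_mem k n l⟩) ?_
    · have h2 : x ∈ (⨆ l : Fin (n + 1), Proj.basicOpen (gr k n) (X l)) := by
        rw [h1]
        exact TopologicalSpace.Opens.mem_top x
      rw [TopologicalSpace.Opens.mem_iSup] at h2
      exact h2
    · rw [eq_top_iff]
      intro F _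
      induction F using MvPolynomial.induction_on with
      | C a =>
        have h2 : (C a : MvPolynomial (Fin (n + 1)) k) ∈ gr k n 0 :=
          (mem_homogeneousSubmodule _ _).mpr (isHomogeneous_C _ a)
        exact Subalgebra.algebraMap_mem
          (Algebra.adjoin (gr k n 0) (Set.range fun l : Fin (n + 1) =>
            (X l : MvPolynomial (Fin (n + 1)) k))) (⟨C a, h2⟩ : gr k n 0)
      | add p q hp hq => exact Subalgebra.add_mem _ (hp trivial) (hq trivial)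
      | mul_X p l hp =>
        exact Subalgebra.mul_mem _ (hp trivial) (Algebra.subset_adjoin ⟨l, rfl⟩)
  one := by
    intro j P h
    obtain ⟨φ, -, h1, -⟩ := exists_psi k n j P h
    rw [h1, frX_self, map_one]
  zero := by
    intro j P h hP d F hF hF0
    obtain ⟨φ, h1, h2, h3⟩ := exists_psi k n j P h
    have hFX : (F * X j).IsHomogeneous (d + 1) := hF.mul (isHomogeneous_X k j)
    have h4 := hom_fr k n j φ.hom (h3 hP) (F * X j) (d + 1) hFX
    have h5 : φ.hom (fr k n j (F * X j) (d + 1) hFX) = 0 := by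
      by_contra hne
      let a : Spec (CommRingCat.of k) := (⟨⊥, Ideal.isPrime_bot⟩ : PrimeSpectrum k)
      have hmem : F * X j ∈ gr k n (d + 1) := (mem_homogeneousSubmodule _ _).mpr hFX
      have h6 := Proj.awayι_preimage_basicOpen (gr k n) (X_mem k n j) one_pos hmem
        (Nat.succ_pos d)
      have h7 : PrimeSpectrum.comap φ.hom (⟨⊥, Ideal.isPrime_bot⟩ : PrimeSpectrum k) ∈
          PrimeSpectrum.basicOpen (Away.isLocalizationElem (X_mem k n j) hmem) := by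
        have h8 : Away.isLocalizationElem (X_mem k n j) hmem =
            fr k n j (F * X j) (d + 1) hFX := by
          unfold fr
          simp only [Away.isLocalizationElem, pow_one]
        rw [h8, PrimeSpectrum.mem_basicOpen]
        intro h9
        apply hne
        exact (Ideal.mem_bot.mp h9 :)
      have h8 : Spec.map φ a ∈ Proj.awayι (gr k n) (X j) (X_mem k n j) one_pos ⁻¹ᵁ
          Proj.basicOpen (gr k n) (F * X j) := by
        rw [h6]
        exact h7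
      have h9 : P a ∈ Proj.basicOpen (gr k n) (F * X j) := by
        rw [← h1]
        exact h8
      rw [Proj.mem_basicOpen] at h9
      exact h9 (Ideal.mul_mem_right _ _ (hF0 a))
    rw [h5] at h4
    have h6 : pcoord k n j P h = fun l => φ.hom (frX k n j l) := funext h2
    rw [h6]
    rw [map_mul, eval_X, frX_self, map_one, mul_one] at h4
    exact h4.symm
  inj := by
    intro j P Q hP hQ h1 h2 h3
    obtain ⟨φ, a1, a2, a3⟩ := exists_psi k n j P hP
    obtain ⟨φ', b1, b2, b3⟩ := exists_psi k n j Q hQ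
    have h4 : φ.hom = φ'.hom := hom_ext k n j φ.hom φ'.hom (a3 h1) (b3 h2) (fun l => by
      rw [← a2, ← b2, h3])
    have h5 : φ = φ' := CommRingCat.hom_ext h4
    rw [← a1, ← b1, h5]

end

/-- Module SPROJ. -/
theorem sproj : SprojStatement := fun k _ n _ => projFacts k n

end Pool.Agent.Gen.H38
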