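import Pool.Agent.Lib.MP_c7af3c_ag.GEN.Interfaces

/-!
# Module THML of project GEN
-/

set_option autoImplicit false

namespace Pool.Agent.Gen.H38

open MvPolynomial

/-- Module THML. -/
theorem thml (hT : Thm1Statement) : ThmlStatement := by
  intro k _ _ _ n c d F hhom hind hd S hS j0
  -- the algebraic closure of the rationals
  let k0 := algebraicClosure ℚ k
  have hk1 := algebraicClosure.isAlgClosure ℚ k
  have hk0 : IsAlgClosed k0 := hk1.isAlgClosed
  have hk0c : CharZero k0 := charZero_of_injective_algebraMap (algebraMap ℚ k0).injective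
  have hind0 : AlgebraicIndependent k0 (coeffs d F) :=  by
    have := IsLocalization.isAlgebraic ℚ (nonZeroDivisors ℤ)
    exact (hind.extendScalars ℚ).algebraicClosure
  -- the field generated by `S` and the coefficients
  let T : Set k := S ∪ ⋃ m, ((F m).coeffs : Set k)
  have hTf : T.Finite := hS.union (Set.finite_iUnion fun m => Finset.finite_toSet _)
  let K : IntermediateField k0 k := IntermediateField.adjoin k0 T
  have hTK : T ⊆ K := IntermediateField.subset_adjoin k0 T
  have hKfg : (⊤ : IntermediateField k0 K).FG := by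
    rw [IntermediateField.fg_top_iff, IntermediateField.essFiniteType_iff]
    exact IntermediateField.fg_adjoin_of_finite hTf
  -- descend the forms
  have hF : ∀ m, ∃ G : MvPolynomial (Fin (n + 1)) K, map (algebraMap K k) G = F m := by
    intro m
    have h1 : F m ∈ Set.range (map (algebraMap K k)) := by
      rw [mem_range_map_iff_coeffs_subset]
      intro a ha
      exact ⟨⟨a, hTK (Or.inr (Set.mem_iUnion.mpr ⟨m, ha⟩))⟩, rfl⟩
    exact h1
  choose G hG using hF
  have hinj : Function.Injective (algebraMap K k) := (algebraMap K k).injective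
  have hGhom : ∀ m, (G m).IsHomogeneous (d m) := fun m =>
    IsHomogeneous.of_map hinj (by rw [hG]; exact hhom m)
  have hGind : AlgebraicIndependent k0 (coeffs d G) := by
    have h1 : coeffs d F = (K.val : K → k) ∘ coeffs d G := by
      funext s
      change coeff s.1.2 (F s.1.1) = algebraMap K k (coeff s.1.2 (G s.1.1))
      rw [← coeff_map, hG]
    rw [h1] at hind0
    exact hind0.of_comp K.val
  have hfin := hT k0 K hKfg n c d G hGhom hGind hd j0
  refine (hfin.image fun x => fun j => (x j : k)).subset ?_
  rintro x ⟨hx1, hx2, hx3⟩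
  have hxK : ∀ j, x j ∈ K := by
    intro j
    have h1 : Subfield.closure S ≤ K.toSubfield :=
      (Subfield.closure_le).mpr fun a ha => hTK (Or.inl ha)
    exact h1 (hx2 j)
  refine ⟨fun j => ⟨x j, hxK j⟩, ⟨Subtype.ext hx1, fun m => ?_⟩, rfl⟩
  apply hinj
  rw [map_zero, ← hx3 m, ← hG m, eval_map]
  exact eval₂_comp_left (algebraMap K k) (RingHom.id K) _ (G m)

end Pool.Agent.Gen.H38
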