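import Pool.Agent.Lib.MP_c7af3c_ag.GEN.Schemes

/-!
# Degree zero part of the localization of the polynomial ring (for module SPROJ)
-/

set_option autoImplicit false

namespace Pool.Agent.Gen.H38

open AlgebraicGeometry CategoryTheory CategoryTheory.Limits MvPolynomial HomogeneousLocalization

/-- the grading of the polynomial ring -/
abbrev gr (k : Type) [Field k] (n : ℕ) : ℕ → Submodule k (MvPolynomial (Fin (n + 1)) k) :=
  homogeneousSubmodule (Fin (n + 1)) k

section

variable (k : Type) [Field k] (n : ℕ) [GradedAlgebra (homogeneousSubmodule (Fin (n + 1)) k)]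
  (j : Fin (n + 1))

/-- constants -/
noncomputable def cst : k →+* Away (gr k n) (X j : MvPolynomial (Fin (n + 1)) k) :=
  (fromZeroRingHom (gr k n) (Submonoid.powers (X j : MvPolynomial (Fin (n + 1)) k))).comp
    (algebraMap k (homogeneousSubmodule (Fin (n + 1)) k 0))

omit [GradedAlgebra (homogeneousSubmodule (Fin (n + 1)) k)] in
theorem mem_smul_one {F : MvPolynomial (Fin (n + 1)) k} {d : ℕ} (hF : F.IsHomogeneous d) :
    F ∈ gr k n (d • 1) := by
  rw [smul_eq_mul, mul_one, mem_homogeneousSubmodule]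
  exact hF

omit [GradedAlgebra (homogeneousSubmodule (Fin (n + 1)) k)] in
theorem X_mem (l : Fin (n + 1)) : (X l : MvPolynomial (Fin (n + 1)) k) ∈ gr k n 1 :=
  (mem_homogeneousSubmodule 1 _).mpr (isHomogeneous_X k l)

omit [GradedAlgebra (homogeneousSubmodule (Fin (n + 1)) k)] in
theorem X_mem' (l : Fin (n + 1)) : (X l : MvPolynomial (Fin (n + 1)) k) ∈ gr k n (1 • 1) := by
  rw [smul_eq_mul, mul_one]
  exact X_mem k n l

/-- the fraction `F / X_j ^ d` -/
noncomputable def fr (F : MvPolynomial (Fin (n + 1)) k) (d : ℕ) (hF : F.IsHomogeneous d) :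
    Away (gr k n) (X j : MvPolynomial (Fin (n + 1)) k) :=
  Away.mk (gr k n) (f := X j) (d := 1) (X_mem k n j) d F (mem_smul_one k n hF)

/-- `X_l / X_j` -/
noncomputable def frX (l : Fin (n + 1)) :
    Away (gr k n) (X j : MvPolynomial (Fin (n + 1)) k) :=
  Away.mk (gr k n) (f := X j) (d := 1) (X_mem k n j) 1 (X l) (X_mem' k n l)

/-- evaluation at the fractions -/
noncomputable def theta : MvPolynomial (Fin (n + 1)) k →+*
    Away (gr k n) (X j : MvPolynomial (Fin (n + 1)) k) :=
  eval₂Hom (cst k n j) (frX k n j)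

theorem val_cst (a : k) : (cst k n j a).val =
    algebraMap (MvPolynomial (Fin (n + 1)) k)
      (Localization (Submonoid.powers (X j : MvPolynomial (Fin (n + 1)) k))) (C a) := by
  exact Localization.mk_one_eq_algebraMap (C a)

theorem theta_eq (F : MvPolynomial (Fin (n + 1)) k) (d : ℕ) (hF : F.IsHomogeneous d) :
    theta k n j F = fr k n j F d hF := by
  apply val_injective
  set r : Localization (Submonoid.powers (X j : MvPolynomial (Fin (n + 1)) k)) :=
    Localization.mk 1 ⟨X j, Submonoid.mem_powers _⟩ with hr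
  have h1 : ∀ l, (frX k n j l).val =
      algebraMap (MvPolynomial (Fin (n + 1)) k) _ (X l) * r := by
    intro l
    unfold frX
    rw [Away.val_mk, ← Localization.mk_one_eq_algebraMap, hr, Localization.mk_mul]
    congr 1
    rw [mul_one]
  have h2 : (fr k n j F d hF).val = algebraMap _ _ F * r ^ d := by
    unfold fr
    rw [Away.val_mk, ← Localization.mk_one_eq_algebraMap, hr, Localization.mk_pow,
      Localization.mk_mul]
    congr 1
    · rw [one_pow, mul_one]
    · apply Subtype.ext
      simp
  rw [h2]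
  have h3 : (theta k n j F).val = (algebraMap (Away (gr k n) (X j))
      (Localization (Submonoid.powers (X j : MvPolynomial (Fin (n + 1)) k)))) (theta k n j F) :=
    rfl
  rw [h3]
  unfold theta
  rw [coe_eval₂Hom, eval₂_comp_left, eval₂_eq']
  have h4 : F = ∑ m ∈ F.support, C (coeff m F) * ∏ i, X i ^ m i := by
    conv_lhs => rw [← eval₂_eta F, eval₂_eq']
  conv_rhs => rw [h4, map_sum, Finset.sum_mul]
  refine Finset.sum_congr rfl fun m hm => ?_
  have h5 : ∑ i, m i = d := by
    have h6 := hF (mem_support_iff.mp hm)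
    rw [← h6, Finsupp.weight_apply, Finsupp.sum_fintype]
    · simp
    · simp
  have h7 : ∀ l, (algebraMap (Away (gr k n) (X j))
      (Localization (Submonoid.powers (X j : MvPolynomial (Fin (n + 1)) k)))) (frX k n j l) =
      algebraMap (MvPolynomial (Fin (n + 1)) k) _ (X l) * r := h1
  have h8 : (algebraMap (Away (gr k n) (X j))
      (Localization (Submonoid.powers (X j : MvPolynomial (Fin (n + 1)) k))))
        (cst k n j (coeff m F)) = algebraMap _ _ (C (coeff m F)) := val_cst k n j _
  simp only [RingHom.coe_comp, Function.comp_apply, h7, h8, mul_pow, Finset.prod_mul_distrib,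
    Finset.prod_pow_eq_pow_sum, h5, map_mul, map_prod, map_pow, mul_assoc]

/-- ring homomorphisms with values in `k` which are the identity on constants -/
theorem hom_fr (ψ : Away (gr k n) (X j : MvPolynomial (Fin (n + 1)) k) →+* k)
    (hψ : ∀ a, ψ (cst k n j a) = a) (F : MvPolynomial (Fin (n + 1)) k) (d : ℕ)
    (hF : F.IsHomogeneous d) :
    ψ (fr k n j F d hF) = eval (fun l => ψ (frX k n j l)) F := by
  rw [← theta_eq]
  unfold theta
  rw [coe_eval₂Hom, eval₂_comp_left]
  have h1 : ψ.comp (cst k n j) = RingHom.id k := RingHom.ext hψ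
  rw [h1]
  rfl

theorem hom_ext (ψ ψ' : Away (gr k n) (X j : MvPolynomial (Fin (n + 1)) k) →+* k)
    (hψ : ∀ a, ψ (cst k n j a) = a) (hψ' : ∀ a, ψ' (cst k n j a) = a)
    (h : ∀ l, ψ (frX k n j l) = ψ' (frX k n j l)) : ψ = ψ' := by
  apply RingHom.ext
  intro z
  obtain ⟨d, F, hF, rfl⟩ := Away.mk_surjective (gr k n) (X_mem k n j) z
  have hF' : F.IsHomogeneous d := by
    rw [smul_eq_mul, mul_one, mem_homogeneousSubmodule] at hF
    exact hF
  have h1 := hom_fr k n j ψ hψ F d hF'
  have h2 := hom_fr k n j ψ' hψ' F d hF'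
  rw [funext h, ← h2] at h1
  exact h1

theorem frX_self : frX k n j j = 1 := by
  apply val_injective
  unfold frX
  rw [Away.val_mk, val_one]
  have h1 : (⟨(X j : MvPolynomial (Fin (n + 1)) k) ^ 1, 1, rfl⟩ :
    Submonoid.powers (X j : MvPolynomial (Fin (n + 1)) k)) = ⟨X j, Submonoid.mem_powers _⟩ :=
    Subtype.ext (pow_one _)
  rw [h1]
  exact Localization.mk_self (⟨X j, Submonoid.mem_powers _⟩ :
    Submonoid.powers (X j : MvPolynomial (Fin (n + 1)) k))

end

end Pool.Agent.Gen.H38
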