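import Pool.Agent.Lib.MP_c7af3c_ag.GEN.Schemes

/-!
# Module SINJ of project GEN
-/

set_option autoImplicit false

namespace Pool.Agent.Gen.H38

open AlgebraicGeometry CategoryTheory CategoryTheory.Limits

theorem isDominant_specIncl {k : Type} [Field k] (R : Subring k) : IsDominant (specIncl R) := by
  constructor
  change DenseRange (PrimeSpectrum.comap R.subtype)
  rw [PrimeSpectrum.denseRange_comap_iff_ker_le_nilRadical]
  have h1 : RingHom.ker R.subtype = ⊥ :=
    (RingHom.injective_iff_ker_eq_bot _).mp R.subtype_injective
  rw [h1]
  exact bot_le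

/-- Module SINJ. -/
theorem sinj : SinjStatement := by
  intro k _ R M p hp s s' hs hs' h
  have := isDominant_specIncl R
  have h1 := congrArg (fun t => t ≫ pullback.fst p (specIncl R)) h
  simp only [secPt, pullback.lift_fst] at h1
  exact ext_of_isDominant_of_isSeparated p (hs.trans hs'.symm) (specIncl R) h1

end Pool.Agent.Gen.H38
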